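import Pool.Agent.Helper77.SO.St3

/-!
# MP_7a9ddc_co, project SO, module DIS (discharging)
-/

set_option autoImplicit false

namespace Pool.Agent.Helper12.SO.DIS

open Equiv Equiv.Perm Pool.Agent.Helper35.PM Pool.Agent.Helper77.HY Pool.Agent.Helper77.OF4
  Pool.Agent.Helper77.SO

variable {V : Type}

open Classical in
/-- the neighbours of `v` in `X` -/
noncomputable def nb (G : SimpleGraph V) (X : Finset V) (v : V) : Finset V :=
  X.filter (fun u => G.Adj v u)

lemma mem_nb {G : SimpleGraph V} {X : Finset V} {v u : V} :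
    u ∈ nb G X v ↔ u ∈ X ∧ G.Adj v u := by
  classical
  simp [nb]

lemma dX_eq (G : SimpleGraph V) (X : Finset V) (v : V) : dX G X v = (nb G X v).card := by
  classical
  unfold dX
  rw [← Set.ncard_coe_finset]
  congr 1
  ext u
  simp [nb]

/-- the subgraph of the edges with both ends in `X` -/
def H (G : SimpleGraph V) (X : Finset V) : SimpleGraph V where
  Adj a b := G.Adj a b ∧ a ∈ X ∧ b ∈ X
  symm := ⟨fun _ _ h => ⟨h.1.symm, h.2.2, h.2.1⟩⟩
  loopless := ⟨fun _ h => h.1.ne rfl⟩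

lemma H_adj (G : SimpleGraph V) (X : Finset V) (a b : V) :
    (H G X).Adj a b ↔ G.Adj a b ∧ a ∈ X ∧ b ∈ X := Iff.rfl

lemma sum_dX [Finite V] (G : SimpleGraph V) (X : Finset V) :
    ∑ v ∈ X, dX G X v = 2 * eN G X := by
  classical
  have := Fintype.ofFinite V
  have h := (H G X).sum_degrees_eq_twice_card_edges
  have h1 : ∀ v, (H G X).degree v = if v ∈ X then dX G X v else 0 := by
    intro v
    rw [dX_eq, ← SimpleGraph.card_neighborFinset_eq_degree]
    split_ifs with hv
    · congr 1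
      ext u
      rw [SimpleGraph.mem_neighborFinset, H_adj, mem_nb]
      tauto
    · rw [Finset.card_eq_zero, Finset.eq_empty_iff_forall_notMem]
      intro u hu
      rw [SimpleGraph.mem_neighborFinset] at hu
      exact hv hu.2.1
  have h2 : eN G X = (H G X).edgeFinset.card := by
    unfold eN
    rw [← Set.ncard_coe_finset]
    congr 1
    rw [SimpleGraph.coe_edgeFinset]
    ext e
    induction e with
    | h a b => simp [H_adj]
  rw [h2, ← h]
  simp_rw [h1]
  rw [Finset.sum_ite_mem, Finset.univ_inter]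

open Classical in
/-- the charge sent by `u` to its neighbour `x` of degree two -/
noncomputable def ff (G : SimpleGraph V) (X : Finset V) (u x : V) : ℤ :=
  if 4 ≤ dX G X u then
    (if ∃ z ∈ X, G.Adj x z ∧ z ≠ u ∧ 4 ≤ dX G X z then 3
     else if ∃ z ∈ X, G.Adj x z ∧ z ≠ u ∧ dX G X z = 3 then 4 else 6)
  else if dX G X u = 3 then 2 else 0

lemma ff_le_six (G : SimpleGraph V) (X : Finset V) (u x : V) : ff G X u x ≤ 6 := by
  unfold ff
  split_ifs <;> norm_num

/-- a vertex of degree two receives six -/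
lemma recv (G : SimpleGraph V) (X : Finset V) (x : V) (h2 : ∀ v ∈ X, 2 ≤ dX G X v)
    (hx2 : dX G X x = 2) (hx : ∃ v ∈ X, G.Adj x v ∧ 4 ≤ dX G X v) :
    ∑ u ∈ nb G X x, ff G X u x = 6 := by
  classical
  have hc := hx2
  rw [dX_eq, Finset.card_eq_two] at hc
  obtain ⟨u, w, huw, hnb⟩ := hc
  rw [hnb, Finset.sum_pair huw]
  have hu : u ∈ X ∧ G.Adj x u := mem_nb.1 (by rw [hnb]; simp)
  have hw : w ∈ X ∧ G.Adj x w := mem_nb.1 (by rw [hnb]; simp)
  have hall : ∀ z ∈ X, G.Adj x z → z = u ∨ z = w := by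
    intro z hz hxz
    have : z ∈ nb G X x := mem_nb.2 ⟨hz, hxz⟩
    rw [hnb] at this
    simpa using this
  have hzu : ∀ P : V → Prop, (∃ z ∈ X, G.Adj x z ∧ z ≠ u ∧ P z) ↔ P w := by
    intro P
    constructor
    · rintro ⟨z, hz, hxz, hne, hP⟩
      rcases hall z hz hxz with h | h
      · exact absurd h hne
      · rwa [← h]
    · intro hP
      exact ⟨w, hw.1, hw.2, huw.symm, hP⟩
  have hzw : ∀ P : V → Prop, (∃ z ∈ X, G.Adj x z ∧ z ≠ w ∧ P z) ↔ P u := by
    intro P
    constructor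
    · rintro ⟨z, hz, hxz, hne, hP⟩
      rcases hall z hz hxz with h | h
      · rwa [← h]
      · exact absurd h hne
    · intro hP
      exact ⟨u, hu.1, hu.2, huw, hP⟩
  have e1 : (∃ z ∈ X, G.Adj x z ∧ z ≠ u ∧ 4 ≤ dX G X z) ↔ 4 ≤ dX G X w :=
    hzu (fun z => 4 ≤ dX G X z)
  have e2 : (∃ z ∈ X, G.Adj x z ∧ z ≠ u ∧ dX G X z = 3) ↔ dX G X w = 3 :=
    hzu (fun z => dX G X z = 3)
  have e3 : (∃ z ∈ X, G.Adj x z ∧ z ≠ w ∧ 4 ≤ dX G X z) ↔ 4 ≤ dX G X u :=
    hzw (fun z => 4 ≤ dX G X z)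
  have e4 : (∃ z ∈ X, G.Adj x z ∧ z ≠ w ∧ dX G X z = 3) ↔ dX G X u = 3 :=
    hzw (fun z => dX G X z = 3)
  have hu2 := h2 u hu.1
  have hw2 := h2 w hw.1
  have hor : 4 ≤ dX G X u ∨ 4 ≤ dX G X w := by
    obtain ⟨v, hv, hxv, h4⟩ := hx
    rcases hall v hv hxv with h | h
    · left; rwa [← h]
    · right; rwa [← h]
  unfold ff
  simp only [e1, e2, e3, e4]
  split_ifs <;> omega

/-- no vertex gives too much -/
lemma give (G : SimpleGraph V) (X : Finset V) (u : V) (hu : 2 ≤ dX G X u)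
    (h4 : ∀ y, dX G X u = 4 → (∀ x ∈ X, G.Adj u x → dX G X x = 2) →
      ∃ x ∈ X, G.Adj u x ∧ x ≠ y ∧ ∃ z ∈ X, G.Adj x z ∧ z ≠ u ∧ 4 ≤ dX G X z) :
    ∑ x ∈ nb G X u, (if dX G X x = 2 then ff G X u x else 0) ≤
      12 * (dX G X u : ℤ) - 30 + (if dX G X u = 2 then 6 else 0) := by
  classical
  set g : V → ℤ := fun x => if dX G X x = 2 then ff G X u x else 0 with hg
  have hg6 : ∀ x, g x ≤ 6 := by
    intro x
    simp only [hg]
    split_ifs
    · exact ff_le_six G X u x
    · norm_num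
  have hbd : ∀ c : ℤ, (∀ x, g x ≤ c) → ∑ x ∈ nb G X u, g x ≤ (dX G X u : ℤ) * c := by
    intro c hc
    calc ∑ x ∈ nb G X u, g x ≤ ∑ x ∈ nb G X u, c := Finset.sum_le_sum fun x _ => hc x
      _ = (dX G X u : ℤ) * c := by rw [Finset.sum_const, dX_eq, nsmul_eq_mul]
  rcases Nat.lt_or_ge (dX G X u) 4 with hlt | hge
  · rcases Nat.lt_or_ge (dX G X u) 3 with hlt3 | hge3
    · have h2 : dX G X u = 2 := by omega
      have := hbd 0 (fun x => by
        simp only [hg, ff]
        rw [h2]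
        norm_num)
      rw [h2] at this ⊢
      rw [if_pos rfl]
      push_cast at this ⊢
      linarith
    · have h3 : dX G X u = 3 := by omega
      have := hbd 2 (fun x => by
        simp only [hg, ff]
        rw [h3]
        split_ifs <;> norm_num at *)
      rw [h3] at this ⊢
      rw [if_neg (by norm_num)]
      push_cast at this ⊢
      linarith
  · rw [if_neg (by omega : ¬ dX G X u = 2)]
    rcases Nat.lt_or_ge 4 (dX G X u) with hgt | hle
    · have := hbd 6 hg6
      have h5 : (5 : ℤ) ≤ (dX G X u : ℤ) := by exact_mod_cast hgt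
      linarith
    · have hd4 : dX G X u = 4 := by omega
      have hsum : ∑ x ∈ nb G X u, (6 - g x) = 24 - ∑ x ∈ nb G X u, g x := by
        rw [Finset.sum_sub_distrib, Finset.sum_const, ← dX_eq, hd4]
        norm_num
      have hnn : ∀ x ∈ nb G X u, 0 ≤ 6 - g x := fun x _ => by
        have := hg6 x
        linarith
      have hkey : 6 ≤ ∑ x ∈ nb G X u, (6 - g x) := by
        by_cases hall : ∀ x ∈ X, G.Adj u x → dX G X x = 2
        · obtain ⟨x1, hx1, hux1, -, z1, hz1, hxz1, hzu1, hd1⟩ := h4 u hd4 hall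
          obtain ⟨x2, hx2, hux2, hne, z2, hz2, hxz2, hzu2, hd2⟩ := h4 x1 hd4 hall
          have hg1 : g x1 = 3 := by
            simp only [hg, ff]
            rw [if_pos (hall x1 hx1 hux1), if_pos hge, if_pos ⟨z1, hz1, hxz1, hzu1, hd1⟩]
          have hg2 : g x2 = 3 := by
            simp only [hg, ff]
            rw [if_pos (hall x2 hx2 hux2), if_pos hge, if_pos ⟨z2, hz2, hxz2, hzu2, hd2⟩]
          have hsub : ({x1, x2} : Finset V) ⊆ nb G X u := by
            intro x hx
            rw [Finset.mem_insert, Finset.mem_singleton] at hx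
            rcases hx with rfl | rfl
            · exact mem_nb.2 ⟨hx1, hux1⟩
            · exact mem_nb.2 ⟨hx2, hux2⟩
          have := Finset.sum_le_sum_of_subset_of_nonneg hsub (f := fun x => 6 - g x)
            (fun x hx _ => hnn x hx)
          rw [Finset.sum_pair hne.symm, hg1, hg2] at this
          linarith
        · push Not at hall
          obtain ⟨x0, hx0, hux0, hd0⟩ := hall
          have := Finset.single_le_sum (f := fun x => 6 - g x) hnn (mem_nb.2 ⟨hx0, hux0⟩)
          have hg0 : g x0 = 0 := by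
            simp only [hg]
            rw [if_neg hd0]
          simp only [hg0] at this
          linarith
      rw [hd4]
      rw [hsum] at hkey
      push_cast
      linarith

theorem main : StDis := by
  classical
  intro V _ G X hX he
  by_contra hcon
  rw [not_or] at hcon
  obtain ⟨hA, hB⟩ := hcon
  have h2 : ∀ v ∈ X, 2 ≤ dX G X v := by
    intro v hv
    by_contra h
    exact hA ⟨v, hv, Or.inl (by omega)⟩
  have h2' : ∀ x ∈ X, dX G X x = 2 → ∃ v ∈ X, G.Adj x v ∧ 4 ≤ dX G X v := by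
    intro x hx hd
    by_contra h
    refine hA ⟨x, hx, Or.inr ⟨hd, fun v hv hxv => ?_⟩⟩
    by_contra h3
    exact h ⟨v, hv, hxv, by omega⟩
  have h4 : ∀ u ∈ X, ∀ y, dX G X u = 4 → (∀ x ∈ X, G.Adj u x → dX G X x = 2) →
      ∃ x ∈ X, G.Adj u x ∧ x ≠ y ∧ ∃ z ∈ X, G.Adj x z ∧ z ≠ u ∧ 4 ≤ dX G X z := by
    intro u hu y hd hall
    by_contra h
    refine hB ⟨u, hu, y, hd, hall, fun x hx hux hxy z hz hxz hzu => ?_⟩
    by_contra h3
    exact h ⟨x, hx, hux, hxy, z, hz, hxz, hzu, by omega⟩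
  -- the two sums
  set F : V → V → ℤ := fun u x => if G.Adj u x ∧ dX G X x = 2 then ff G X u x else 0 with hF
  have hgive : ∀ u, ∑ x ∈ X, F u x =
      ∑ x ∈ nb G X u, (if dX G X x = 2 then ff G X u x else 0) := by
    intro u
    unfold nb
    rw [Finset.sum_filter]
    refine Finset.sum_congr rfl fun x _ => ?_
    simp only [hF]
    by_cases h : G.Adj u x
    · simp [h]
    · simp [h]
  have hrecv : ∀ x ∈ X, ∑ u ∈ X, F u x = if dX G X x = 2 then 6 else 0 := by
    intro x hx
    by_cases h : dX G X x = 2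
    · rw [if_pos h, ← recv G X x h2 h (h2' x hx h)]
      unfold nb
      rw [Finset.sum_filter]
      refine Finset.sum_congr rfl fun u _ => ?_
      simp only [hF]
      by_cases hh : G.Adj u x
      · simp [hh, hh.symm, h]
      · have hh' : ¬ G.Adj x u := fun h' => hh h'.symm
        simp [hh, hh']
    · rw [if_neg h]
      refine Finset.sum_eq_zero fun u _ => ?_
      simp [hF, h]
  have hsumd := sum_dX G X
  have hle : ∑ u ∈ X, ∑ x ∈ X, F u x ≤
      ∑ u ∈ X, (12 * (dX G X u : ℤ) - 30 + (if dX G X u = 2 then 6 else 0)) := by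
    refine Finset.sum_le_sum fun u hu => ?_
    rw [hgive u]
    exact give G X u (h2 u hu) (h4 u hu)
  rw [Finset.sum_comm, Finset.sum_congr rfl hrecv, Finset.sum_add_distrib,
    Finset.sum_sub_distrib, ← Finset.mul_sum, Finset.sum_const, nsmul_eq_mul] at hle
  have h5 : (∑ u ∈ X, (dX G X u : ℤ)) = 2 * (eN G X : ℤ) := by exact_mod_cast hsumd
  rw [h5] at hle
  have h6 : 4 * (eN G X : ℤ) < 5 * (X.card : ℤ) := by exact_mod_cast he
  linarith

end Pool.Agent.Helper12.SO.DIS
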